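import Mathlib
import Pool.Agent.Helper93.Hemi.Base

/-!
# Packet J: the identification `J = Herm_3(E)`
-/

set_option autoImplicit false

open Classical

namespace Pool.Agent.Helper24.Hemi

open Pool.Agent.Helper93.Hemi

variable {k E : Type} [Field k] [Fintype k] [Field E] [Fintype E] [Algebra k E]

theorem J1 (c : Ctx k E) (z : k × E) (X : E × E × E) : dt (c.toH z X) = c.NJ z X := by
  obtain ⟨a, U⟩ := z
  obtain ⟨x0, x1, x2⟩ := X
  apply algebraMap_inj (E := E)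
  simp only [dt, Ctx.NJ, Ctx.toH, Ctx.n, aa, Ctx.YY, Ctx.nu, map_add, map_sub, map_mul, map_pow,
    map_ofNat, tr_formula c.finE, nm_formula c.finE, cj_cj c.finE, Ctx.cj_ω]
  have hw := c.hω
  have hp := c.hρ
  generalize cj k E x0 = y0
  generalize cj k E x1 = y1
  generalize cj k E x2 = y2
  generalize cj k E U = V
  generalize algebraMap k E a = a
  generalize cj k E c.ρ = r at *
  generalize c.ρ = p at *
  generalize c.ω = w at *
  linear_combination (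
      w ^ 10 * p * U ^ 3 + w ^ 10 * p * U ^ 2 * x1 + w ^ 10 * p * U ^ 2 * y2
      - w ^ 9 * p * U ^ 3 - w ^ 9 * p * U ^ 2 * x1 - w ^ 9 * p * U ^ 2 * y2
      + w ^ 8 * p * U ^ 2 * x1 + w ^ 8 * p * U ^ 2 * y2 + w ^ 8 * p * U * x1 ^ 2
      + 2 * w ^ 8 * p * U * x1 * y2 + w ^ 8 * p * U * y2 ^ 2 - w ^ 8 * U * V * y0
      + w ^ 7 * p * U ^ 3 - w ^ 7 * p * U * x1 ^ 2 - 2 * w ^ 7 * p * U * x1 * y2
      - w ^ 7 * p * U * y2 ^ 2 + w ^ 7 * U * V * y0 - w ^ 7 * U * x2 * y0 - w ^ 6 * p * U ^ 3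
      + w ^ 6 * p * U * x1 ^ 2 + 3 * w ^ 6 * p * U * x1 * y2 + w ^ 6 * p * U * y2 ^ 2
      + w ^ 6 * p * x1 ^ 2 * y2 + w ^ 6 * p * x1 * y2 ^ 2 - w ^ 6 * U * V * x0
      - w ^ 6 * U * V * y0 + w ^ 6 * U * x2 * y0 - w ^ 6 * U * y0 * y1 - w ^ 6 * V * y0 * y2
      - w ^ 5 * p * U * x1 * y2 - w ^ 5 * p * x1 ^ 2 * y2 - w ^ 5 * p * x1 * y2 ^ 2
      - w ^ 5 * U * x0 * x2 + w ^ 5 * V * y0 * y2 - w ^ 5 * x2 * y0 * y2
      - w ^ 4 * p * r * a * U * V - w ^ 4 * p * r * a * U * x2 - w ^ 4 * p * r * a * U * y1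
      - w ^ 4 * p * r * a * V * x1 - w ^ 4 * p * r * a * V * y2 - w ^ 4 * p * r * a * x1 * x2
      - w ^ 4 * p * r * a * x1 * y1 - w ^ 4 * p * r * a * x2 * y2 - w ^ 4 * p * r * a * y1 * y2
      - w ^ 4 * p * r * U * V * x0 - w ^ 4 * p * r * U * V * y0 - w ^ 4 * p * r * U * x0 * x2
      - w ^ 4 * p * r * U * x0 * y1 - w ^ 4 * p * r * U * x2 * y0 - w ^ 4 * p * r * U * y0 * y1
      - w ^ 4 * p * r * V * x0 * x1 - w ^ 4 * p * r * V * x0 * y2 - w ^ 4 * p * r * V * x1 * y0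
      - w ^ 4 * p * r * V * y0 * y2 - w ^ 4 * p * r * x0 * x1 * x2
      - w ^ 4 * p * r * x0 * x1 * y1 - w ^ 4 * p * r * x0 * x2 * y2
      - w ^ 4 * p * r * x0 * y1 * y2 - w ^ 4 * p * r * x1 * x2 * y0
      - w ^ 4 * p * r * x1 * y0 * y1 - w ^ 4 * p * r * x2 * y0 * y2
      - w ^ 4 * p * r * y0 * y1 * y2 + w ^ 4 * p * U ^ 3 - 2 * w ^ 4 * p * U * x1 * y2
      + w ^ 4 * p * x1 ^ 3 + w ^ 4 * p * x1 ^ 2 * y2 + w ^ 4 * p * x1 * y2 ^ 2
      + w ^ 4 * p * y2 ^ 3 + w ^ 4 * r * V ^ 3 + w ^ 4 * r * V ^ 2 * x2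
      + w ^ 4 * r * V ^ 2 * y1 - 2 * w ^ 4 * a * U * V + w ^ 4 * a * y0 ^ 2
      + w ^ 4 * U * V * x0 + w ^ 4 * U * V * y0 + w ^ 4 * U * x0 * x2 - 2 * w ^ 4 * U * x0 * y1
      - 2 * w ^ 4 * U * x2 * y0 + w ^ 4 * U * y0 * y1 - w ^ 4 * V * x0 * y2
      - 2 * w ^ 4 * V * x1 * y0 + w ^ 4 * x0 * y0 ^ 2 + w ^ 4 * x2 * y0 * y2 + w ^ 4 * y0 ^ 3
      - w ^ 4 * y0 * y1 * y2 + w ^ 3 * p * r * a * U * V + w ^ 3 * p * r * a * U * x2
      + w ^ 3 * p * r * a * U * y1 + w ^ 3 * p * r * a * V * x1 + w ^ 3 * p * r * a * V * y2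
      + w ^ 3 * p * r * a * x1 * x2 + w ^ 3 * p * r * a * x1 * y1 + w ^ 3 * p * r * a * x2 * y2
      + w ^ 3 * p * r * a * y1 * y2 + w ^ 3 * p * r * U * V * x0 + w ^ 3 * p * r * U * V * y0
      + w ^ 3 * p * r * U * x0 * x2 + w ^ 3 * p * r * U * x0 * y1 + w ^ 3 * p * r * U * x2 * y0
      + w ^ 3 * p * r * U * y0 * y1 + w ^ 3 * p * r * V * x0 * x1 + w ^ 3 * p * r * V * x0 * y2
      + w ^ 3 * p * r * V * x1 * y0 + w ^ 3 * p * r * V * y0 * y2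
      + w ^ 3 * p * r * x0 * x1 * x2 + w ^ 3 * p * r * x0 * x1 * y1
      + w ^ 3 * p * r * x0 * x2 * y2 + w ^ 3 * p * r * x0 * y1 * y2
      + w ^ 3 * p * r * x1 * x2 * y0 + w ^ 3 * p * r * x1 * y0 * y1
      + w ^ 3 * p * r * x2 * y0 * y2 + w ^ 3 * p * r * y0 * y1 * y2 - w ^ 3 * p * U ^ 3
      + 3 * w ^ 3 * p * U * x1 * y2 - w ^ 3 * p * x1 ^ 3 - w ^ 3 * p * y2 ^ 3
      - w ^ 3 * r * V ^ 3 + w ^ 3 * r * V * x2 ^ 2 + 2 * w ^ 3 * r * V * x2 * y1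
      + w ^ 3 * r * V * y1 ^ 2 + 2 * w ^ 3 * a * U * V - w ^ 3 * a * U * x2
      - w ^ 3 * a * U * y1 + w ^ 3 * a * x0 * y0 - w ^ 3 * a * y0 ^ 2 - w ^ 3 * U * V * x0
      - w ^ 3 * U * V * y0 - w ^ 3 * U * x0 * x2 + 2 * w ^ 3 * U * x0 * y1
      + 2 * w ^ 3 * U * x2 * y0 - w ^ 3 * U * y0 * y1 - w ^ 3 * V * x0 * x1
      + w ^ 3 * V * x0 * y2 + 2 * w ^ 3 * V * x1 * y0 - w ^ 3 * V * y0 * y2
      + w ^ 3 * x0 ^ 2 * y0 - w ^ 3 * x0 * x2 * y2 - w ^ 3 * x1 * x2 * y0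
      - w ^ 3 * x1 * y0 * y1 - w ^ 3 * y0 ^ 3 + w ^ 3 * y0 * y1 * y2 + w ^ 2 * r * V * x2 * y1
      + w ^ 2 * r * x2 ^ 2 * y1 + w ^ 2 * r * x2 * y1 ^ 2 + w ^ 2 * a ^ 2 * y0
      - w ^ 2 * a * V * x1 - w ^ 2 * a * V * y2 + w ^ 2 * a * x0 * y0 + w ^ 2 * a * y0 ^ 2
      - w ^ 2 * x0 * x1 * y1 + w ^ 2 * x0 * x2 * y2 - w ^ 2 * x0 * y1 * y2
      - w ^ 2 * x2 * y0 * y2 - w * p * r * a * U * V - w * p * r * a * U * x2
      - w * p * r * a * U * y1 - w * p * r * a * V * x1 - w * p * r * a * V * y2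
      - w * p * r * a * x1 * x2 - w * p * r * a * x1 * y1 - w * p * r * a * x2 * y2
      - w * p * r * a * y1 * y2 - w * p * r * U * V * x0 - w * p * r * U * V * y0
      - w * p * r * U * x0 * x2 - w * p * r * U * x0 * y1 - w * p * r * U * x2 * y0
      - w * p * r * U * y0 * y1 - w * p * r * V * x0 * x1 - w * p * r * V * x0 * y2
      - w * p * r * V * x1 * y0 - w * p * r * V * y0 * y2 - w * p * r * x0 * x1 * x2
      - w * p * r * x0 * x1 * y1 - w * p * r * x0 * x2 * y2 - w * p * r * x0 * y1 * y2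
      - w * p * r * x1 * x2 * y0 - w * p * r * x1 * y0 * y1 - w * p * r * x2 * y0 * y2
      - w * p * r * y0 * y1 * y2 + w * p * U ^ 3 - 3 * w * p * U * x1 * y2 + w * p * x1 ^ 3
      + w * p * y2 ^ 3 + w * r * V ^ 3 - 3 * w * r * V * x2 * y1 + w * r * x2 ^ 3
      + w * r * y1 ^ 3 - w * a ^ 2 * y0 - 2 * w * a * U * V + w * a * U * x2 + w * a * U * y1
      + w * a * V * x1 + w * a * V * y2 + w * a * x0 ^ 2 - 2 * w * a * x0 * y0
      - w * a * x1 * y1 - w * a * x2 * y2 + w * U * V * x0 + w * U * V * y0 + w * U * x0 * x2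
      - 2 * w * U * x0 * y1 - 2 * w * U * x2 * y0 + w * U * y0 * y1 + w * V * x0 * x1
      - 2 * w * V * x0 * y2 - 2 * w * V * x1 * y0 + w * V * y0 * y2 + w * x0 ^ 3
      - 2 * w * x0 * x1 * x2 + w * x0 * x1 * y1 + w * x0 * y1 * y2 + w * x1 * x2 * y0
      + w * x1 * y0 * y1 + w * x2 * y0 * y2 + w * y0 ^ 3 - 2 * w * y0 * y1 * y2
      + p * r * a * U * V + p * r * a * U * x2 + p * r * a * U * y1 + p * r * a * V * x1
      + p * r * a * V * y2 + p * r * a * x1 * x2 + p * r * a * x1 * y1 + p * r * a * x2 * y2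
      + p * r * a * y1 * y2 + p * r * U * V * x0 + p * r * U * V * y0 + p * r * U * x0 * x2
      + p * r * U * x0 * y1 + p * r * U * x2 * y0 + p * r * U * y0 * y1 + p * r * V * x0 * x1
      + p * r * V * x0 * y2 + p * r * V * x1 * y0 + p * r * V * y0 * y2 + p * r * x0 * x1 * x2
      + p * r * x0 * x1 * y1 + p * r * x0 * x2 * y2 + p * r * x0 * y1 * y2
      + p * r * x1 * x2 * y0 + p * r * x1 * y0 * y1 + p * r * x2 * y0 * y2
      + p * r * y0 * y1 * y2 - p * U ^ 3 + 3 * p * U * x1 * y2 - p * x1 ^ 3 - p * y2 ^ 3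
      - r * V ^ 3 + 3 * r * V * x2 * y1 - r * x2 ^ 3 - r * y1 ^ 3 + a ^ 2 * x0 + a ^ 2 * y0
      + 2 * a * U * V - a * U * x2 - a * U * y1 - a * V * x1 - a * V * y2 + 3 * a * x0 * y0
      - a * x1 * x2 + a * x1 * y1 + a * x2 * y2 - a * y1 * y2 - U * V * x0 - U * V * y0
      - U * x0 * x2 + 2 * U * x0 * y1 + 2 * U * x2 * y0 - U * y0 * y1 - V * x0 * x1
      + 2 * V * x0 * y2 + 2 * V * x1 * y0 - V * y0 * y2 - x0 ^ 3 + 2 * x0 * x1 * x2
      - x0 * x1 * y1 - x0 * x2 * y2 - x0 * y1 * y2 - x1 * x2 * y0 - x1 * y0 * y1 - x2 * y0 * y2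
      - y0 ^ 3 + 2 * y0 * y1 * y2) * hw + (
      -a * U * V - a * U * x2 - a * U * y1 - a * V * x1 - a * V * y2 - a * x1 * x2
      - a * x1 * y1 - a * x2 * y2 - a * y1 * y2 - U * V * x0 - U * V * y0 - U * x0 * x2
      - U * x0 * y1 - U * x2 * y0 - U * y0 * y1 - V * x0 * x1 - V * x0 * y2 - V * x1 * y0
      - V * y0 * y2 - x0 * x1 * x2 - x0 * x1 * y1 - x0 * x2 * y2 - x0 * y1 * y2 - x1 * x2 * y0
      - x1 * y0 * y1 - x2 * y0 * y2 - y0 * y1 * y2) * hp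

theorem tr_mul_cj (h : Module.finrank k E = 2) (x y : E) :
    algebraMap k E (tr k E (x * cj k E y)) = x * cj k E y + cj k E x * y := by
  rw [tr_formula h, map_mul, cj_cj h]

theorem J2 (c : Ctx k E) (z : k × E) (X : E × E × E) (z' : k × E) (X' : E × E × E) :
    pr (c.toH z X) (c.toH z' X') =
      3 * (z.1 * z'.1 + tr k E (z.2 * cj k E z'.2) + ip X X') := by
  obtain ⟨a, U⟩ := z
  obtain ⟨x0, x1, x2⟩ := X
  obtain ⟨a', U'⟩ := z'
  obtain ⟨x0', x1', x2'⟩ := X'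
  apply algebraMap_inj (E := E)
  simp only [pr, ip, map_add, map_mul, map_ofNat, tr_mul_cj c.finE]
  simp only [Ctx.toH, map_add, map_mul, map_pow, tr_formula c.finE, cj_cj c.finE, Ctx.cj_ω]
  have hw := c.hω
  have hp := c.hρ
  generalize cj k E x0 = y0
  generalize cj k E x1 = y1
  generalize cj k E x2 = y2
  generalize cj k E U = V
  generalize algebraMap k E a = a
  generalize cj k E x0' = y0'
  generalize cj k E x1' = y1'
  generalize cj k E x2' = y2'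
  generalize cj k E U' = V'
  generalize algebraMap k E a' = a'
  generalize cj k E c.ρ = r at *
  generalize c.ρ = p at *
  generalize c.ω = w at *
  linear_combination (
      w ^ 6 * y0 * y0' - w ^ 5 * y0 * y0' + w ^ 4 * p * r * U * V' + w ^ 4 * p * r * U * x2'
      + w ^ 4 * p * r * U * y1' + w ^ 4 * p * r * V * U' + w ^ 4 * p * r * V * x1'
      + w ^ 4 * p * r * V * y2' + w ^ 4 * p * r * x1 * V' + w ^ 4 * p * r * x1 * x2'
      + w ^ 4 * p * r * x1 * y1' + w ^ 4 * p * r * x2 * U' + w ^ 4 * p * r * x2 * x1'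
      + w ^ 4 * p * r * x2 * y2' + w ^ 4 * p * r * y1 * U' + w ^ 4 * p * r * y1 * x1'
      + w ^ 4 * p * r * y1 * y2' + w ^ 4 * p * r * y2 * V' + w ^ 4 * p * r * y2 * x2'
      + w ^ 4 * p * r * y2 * y1' + 2 * w ^ 4 * U * V' + 2 * w ^ 4 * V * U' + w ^ 4 * x0 * y0'
      + w ^ 4 * y0 * x0' - w ^ 3 * p * r * U * V' - w ^ 3 * p * r * U * x2'
      - w ^ 3 * p * r * U * y1' - w ^ 3 * p * r * V * U' - w ^ 3 * p * r * V * x1'
      - w ^ 3 * p * r * V * y2' - w ^ 3 * p * r * x1 * V' - w ^ 3 * p * r * x1 * x2'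
      - w ^ 3 * p * r * x1 * y1' - w ^ 3 * p * r * x2 * U' - w ^ 3 * p * r * x2 * x1'
      - w ^ 3 * p * r * x2 * y2' - w ^ 3 * p * r * y1 * U' - w ^ 3 * p * r * y1 * x1'
      - w ^ 3 * p * r * y1 * y2' - w ^ 3 * p * r * y2 * V' - w ^ 3 * p * r * y2 * x2'
      - w ^ 3 * p * r * y2 * y1' - 2 * w ^ 3 * U * V' + w ^ 3 * U * x2' + w ^ 3 * U * y1'
      - 2 * w ^ 3 * V * U' - w ^ 3 * x0 * y0' + w ^ 3 * x2 * U' - w ^ 3 * y0 * x0'
      + w ^ 3 * y0 * y0' + w ^ 3 * y1 * U' + w ^ 2 * a * y0' + w ^ 2 * V * x1'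
      + w ^ 2 * V * y2' + w ^ 2 * x0 * x0' + w ^ 2 * x1 * V' + w ^ 2 * y0 * a'
      + w ^ 2 * y2 * V' + w * p * r * U * V' + w * p * r * U * x2' + w * p * r * U * y1'
      + w * p * r * V * U' + w * p * r * V * x1' + w * p * r * V * y2' + w * p * r * x1 * V'
      + w * p * r * x1 * x2' + w * p * r * x1 * y1' + w * p * r * x2 * U'
      + w * p * r * x2 * x1' + w * p * r * x2 * y2' + w * p * r * y1 * U'
      + w * p * r * y1 * x1' + w * p * r * y1 * y2' + w * p * r * y2 * V'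
      + w * p * r * y2 * x2' + w * p * r * y2 * y1' - w * a * y0' + 2 * w * U * V'
      - w * U * x2' - w * U * y1' + 2 * w * V * U' - w * V * x1' - w * V * y2' - w * x0 * x0'
      + 2 * w * x0 * y0' - w * x1 * V' + w * x1 * y1' - w * x2 * U' + w * x2 * y2'
      - w * y0 * a' + 2 * w * y0 * x0' - w * y0 * y0' - w * y1 * U' + w * y1 * x1'
      - w * y2 * V' + w * y2 * x2' - p * r * U * V' - p * r * U * x2' - p * r * U * y1'
      - p * r * V * U' - p * r * V * x1' - p * r * V * y2' - p * r * x1 * V' - p * r * x1 * x2'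
      - p * r * x1 * y1' - p * r * x2 * U' - p * r * x2 * x1' - p * r * x2 * y2'
      - p * r * y1 * U' - p * r * y1 * x1' - p * r * y1 * y2' - p * r * y2 * V'
      - p * r * y2 * x2' - p * r * y2 * y1' + a * x0' + a * y0' - 2 * U * V' + U * x2'
      + U * y1' - 2 * V * U' + V * x1' + V * y2' + x0 * a' + x0 * x0' - 2 * x0 * y0' + x1 * V'
      + x1 * x2' - x1 * y1' + x2 * U' + x2 * x1' - x2 * y2' + y0 * a' - 2 * y0 * x0' + y0 * y0'
      + y1 * U' - y1 * x1' + y1 * y2' + y2 * V' - y2 * x2' + y2 * y1') * hw + (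
      U * V' + U * x2' + U * y1' + V * U' + V * x1' + V * y2' + x1 * V' + x1 * x2' + x1 * y1'
      + x2 * U' + x2 * x1' + x2 * y2' + y1 * U' + y1 * x1' + y1 * y2' + y2 * V' + y2 * x2'
      + y2 * y1') * hp

theorem J3 (c : Ctx k E) :
    Function.Injective (fun p : (k × E) × (E × E × E) => c.toH p.1 p.2) := by
  rintro ⟨⟨a, U⟩, ⟨x0, x1, x2⟩⟩ ⟨⟨a', U'⟩, ⟨x0', x1', x2'⟩⟩ h
  simp only [Ctx.toH, Prod.mk.injEq] at h
  obtain ⟨⟨h0, h1, h2⟩, h3, h4, h5⟩ := h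
  have h3E := c.three_ne_E
  have hr : cj k E c.ρ ≠ 0 := fun h => c.ρ_ne (cj_eq_zero.1 h)
  have hw := c.hω
  have hw0 : c.ω ≠ 0 := by
    intro h
    rw [h] at hw
    simp at hw
  replace h0 := congrArg (algebraMap k E) h0
  replace h1 := congrArg (algebraMap k E) h1
  replace h2 := congrArg (algebraMap k E) h2
  simp only [map_add, map_mul, map_pow, tr_formula c.finE, Ctx.cj_ω] at h0 h1 h2
  have ha : algebraMap k E a = algebraMap k E a' := by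
    apply mul_left_cancel₀ h3E
    linear_combination h0 + h1 + h2 - (x0 + c.ω ^ 2 * cj k E x0 - c.ω * cj k E x0 + cj k E x0
      - x0' - c.ω ^ 2 * cj k E x0' + c.ω * cj k E x0' - cj k E x0') * hw
  have hx0 : x0 = x0' := by
    apply mul_left_cancel₀ h3E
    linear_combination h0 + c.ω ^ 2 * h1 + c.ω * h2 -
      ((algebraMap k E a - algebraMap k E a') + 2 * (c.ω - 1) * (x0 - x0') +
        (c.ω ^ 3 - c.ω + 1) * (cj k E x0 - cj k E x0')) * hw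
  have he0 : (cj k E U - cj k E U') + (cj k E x1 - cj k E x1') + (x2 - x2') = 0 := by
    have h6 : cj k E c.ρ * c.ω ^ 2 *
        ((cj k E U - cj k E U') + (cj k E x1 - cj k E x1') + (x2 - x2')) = 0 := by
      linear_combination h3
    rcases mul_eq_zero.1 h6 with h7 | h7
    · exact absurd h7 (mul_ne_zero hr (pow_ne_zero 2 hw0))
    · exact h7
  have hU : cj k E U = cj k E U' := by
    apply mul_left_cancel₀ h3E
    linear_combination he0 + c.ω * h4 + c.ω * h5 -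
      (2 * (c.ω - 1) * (cj k E U - cj k E U') + (cj k E x1 - cj k E x1') + (x2 - x2')) * hw
  have hx1 : cj k E x1 = cj k E x1' := by
    apply mul_left_cancel₀ h3E
    linear_combination he0 + c.ω ^ 2 * h4 + c.ω ^ 3 * h5 -
      ((c.ω ^ 3 - c.ω + 1) * (cj k E U - cj k E U') + 2 * (c.ω - 1) * (cj k E x1 - cj k E x1') +
        (c.ω ^ 2 - c.ω + 1) * (x2 - x2')) * hw
  have hx2 : x2 = x2' := by
    rw [hU, hx1] at he0
    linear_combination he0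
  rw [algebraMap_inj ha, hx0, cj_injective hU, cj_injective hx1, hx2]

/-- **Packet J.** -/
theorem goalJ : GoalJ := by
  intro k E _ _ _ _ _ c
  refine ⟨J1 c, J2 c, ?_⟩
  rw [Fintype.bijective_iff_injective_and_card]
  refine ⟨J3 c, ?_⟩
  simp only [Fintype.card_prod, card_E c.finE]
  ring

end Pool.Agent.Helper24.Hemi
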